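import Mathlib
import Pool.Agent.Helper15.UH.FDefs
import Pool.Agent.Helper15.UH.Bridge
import Pool.Agent.Helper15.UH.All
import Pool.Agent.Helper19.UH.RC
import Pool.Agent.Helper19.UH.Final

/-!
# A rationally connected variety with infinite unramified cohomology of degree four

There is an integral affine complex variety `X = Spec A` of dimension six, unirational and
rationally connected, such that the unramified cohomology group `H^4_nr(ℂ(X)/ℂ, ℤ/2)` is infinite.
(Work of helper15 and helper19, with packets by many members of the team.)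

The function field is `L = ℂ(t,x,y,u,r,s,P,Q)` with `P² = f + u r²`, `Q² = u h + a s²`, where
`a = (x+1)(x+9)`, `f = x (x+1)(x+9) y (y-1)(y-(t²+ρ)²)`, `h = (u-1)(u-1/ρ)`, `ρ` transcendental,
and the classes are the symbols `{u, a, y, (t-t_m)(t-t_0)}`, where `t_m² + ρ` runs through the
Landen chain of the modulus `1/2`.
-/

namespace Pool.Agent.Results.MP_ba83fc_ag.UnramifiedH4Infinite

open UnrCoh UnrH

/-- There is an integral affine variety `X = Spec A` over `ℂ`, of dimension six, which is
unirational and rationally connected, with `H^4_nr(ℂ(X)/ℂ, ℤ/2)` infinite. -/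
theorem result :
    ∃ (A : Type) (_ : CommRing A) (_ : IsDomain A) (_ : Algebra ℂ A),
      Algebra.FiniteType ℂ A ∧ Algebra.trdeg ℂ A = 6 ∧
      (∃ f : A →ₐ[ℂ] FractionRing (MvPolynomial (Fin 6) ℂ), Function.Injective f) ∧
      RationallyConnected A ∧
      Infinite (Hnr (FractionRing A) 2 4) := by
  obtain ⟨A, _, _, _, h1, h2, h3, h4, h5⟩ := exists_rationallyConnected all_seq all_absu all_sym4
    all_place all_nv all_eqn all_ind all_lval
  refine ⟨A, inferInstance, inferInstance, inferInstance, h1, ?_, h2, h3, bridge _ 2 4 h5⟩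
  have h := trdeg_add_eq ℂ A (A := FractionRing A)
  have h6 : Algebra.IsAlgebraic A (FractionRing A) :=
    IsLocalization.isAlgebraic _ (nonZeroDivisors A)
  have h7 : Algebra.trdeg A (FractionRing A) = 0 := trdeg_eq_zero
  rw [h7, add_zero, h4] at h
  exact h

end Pool.Agent.Results.MP_ba83fc_ag.UnramifiedH4Infinite
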